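import Pool.Agent.Helper40_VR.Cross

set_option autoImplicit false

namespace Pool.Agent.Helper40_VR

open Finset

section Combine

set_option linter.unusedSectionVars false

variable {V : Type*} [LinearOrder V]

theorem mem_chains {K : PreAbstractSimplicialComplex V} {k : ℕ} {c : Finset V →₀ ℤ} :
    c ∈ chains K k ↔ ∀ τ, c τ ≠ 0 → (τ.card = k ∧ (τ = ∅ ∨ τ ∈ K)) := by
  unfold chains
  rw [Finsupp.mem_supported]
  constructor
  · intro h τ hτ
    exact h (Finsupp.mem_support_iff.2 hτ)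
  · intro h τ hτ
    exact h τ (Finsupp.mem_support_iff.1 hτ)

/-- A facet of `K` which is a facet of an induced cross-polytope with `i + 1` pairs of opposite
vertices gives a nonzero class in degree `i`. -/
theorem nontrivial_of_cross (K : PreAbstractSimplicialComplex V) (i : ℕ) (X : Set V)
    (R : V → V → Prop) (hR : ∀ x y, R x y → R y x)
    (hK : ∀ τ : Finset V, τ.Nonempty → (∀ x ∈ τ, x ∈ X) →
      (∀ x ∈ τ, ∀ y ∈ τ, x ≠ y → R x y) → τ ∈ K)
    (l : List (V × V)) (hlen : l.length = i + 1) (hl : l.Pairwise (Compat R))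
    (hX : ∀ p ∈ l, p.1 ∈ X ∧ p.2 ∈ X) (hne : ∀ p ∈ l, p.1 ≠ p.2)
    (hfacet : ∀ τ ∈ K, (∀ p ∈ l, p.1 ∈ τ) → ∀ x ∈ τ, ∃ p ∈ l, x = p.1) :
    Nontrivial (ReducedHomology K i) := by
  have hsupp := cross_support hR l hl hX
  have hz : cross l ∈ cycles K i := by
    refine ⟨?_, ?_⟩
    · rw [SetLike.mem_coe, mem_chains]
      intro τ hτ
      obtain ⟨h1, h2, _, h4⟩ := hsupp τ hτ
      refine ⟨by rw [h2, hlen], Or.inr (hK τ ?_ h1 h4)⟩
      rw [← card_pos, h2, hlen]; exact Nat.succ_pos i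
    · exact bd_cross l
  rw [ReducedHomology, Submodule.Quotient.nontrivial_iff]
  intro htop
  have hmem : (⟨cross l, hz⟩ : cycles K i) ∈ (boundaries K i).comap (cycles K i).subtype := by
    rw [htop]; exact Submodule.mem_top
  rw [Submodule.mem_comap] at hmem
  obtain ⟨b, hb, hbz⟩ := hmem
  rw [SetLike.mem_coe, mem_chains] at hb
  have hbz' : bd b = cross l := hbz
  have h0 := bd_apply_facet (K := {τ | τ ∈ K}) (σ := (l.map Prod.fst).toFinset) (b := b)
    (by
      intro τ hτ hsub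
      have h1 := hfacet τ hτ (fun p hp => hsub (by
        rw [List.mem_toFinset, List.mem_map]; exact ⟨p, hp, rfl⟩))
      refine (subset_antisymm hsub ?_).symm
      intro x hx
      obtain ⟨p, hp, hxp⟩ := h1 x hx
      rw [List.mem_toFinset, List.mem_map]
      exact ⟨p, hp, hxp.symm⟩)
    (by
      intro τ hτ
      obtain ⟨h1, h2 | h2⟩ := hb τ hτ
      · rw [h2, card_empty] at h1; omega
      · exact h2)
  rw [hbz'] at h0
  exact cross_coeff R l hl hne h0

/-- A finite clique complex in which every `2 i + 2` vertices have a common neighbour has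
vanishing reduced homology in degree `i`. -/
theorem subsingleton_of_common (K : PreAbstractSimplicialComplex V) (i : ℕ) (X : Finset V)
    (R : V → V → Prop) (hR : ∀ x y, R x y → R y x)
    (hK : ∀ τ : Finset V, τ ∈ K ↔
      (τ.Nonempty ∧ τ ⊆ X ∧ (∀ x ∈ τ, ∀ y ∈ τ, x ≠ y → R x y)))
    (hS : ∀ S ⊆ X, S.card ≤ 2 * (i + 1) → ∃ w ∈ X, w ∉ S ∧ ∀ s ∈ S, R w s) :
    Subsingleton (ReducedHomology K i) := by
  rw [ReducedHomology, Submodule.Quotient.subsingleton_iff, eq_top_iff]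
  rintro ⟨c, hc⟩ -
  rw [Submodule.mem_comap]
  obtain ⟨hc1, hc2⟩ := hc
  rw [SetLike.mem_coe, mem_chains] at hc1
  obtain ⟨b, hb, hbc⟩ := meshulam (i + 1) (nonedges X R).card X R hR le_rfl hS c
    (by
      intro τ hτ
      obtain ⟨h1, h2 | h2⟩ := hc1 τ hτ
      · rw [h2, card_empty] at h1; omega
      · exact ⟨((hK τ).1 h2).2.1, h1, ((hK τ).1 h2).2.2⟩) hc2
  refine ⟨b, ?_, hbc⟩
  rw [SetLike.mem_coe, mem_chains]
  intro τ hτ
  have h := hb τ hτ
  refine ⟨h.2.1, Or.inr ((hK τ).2 ⟨?_, h.1, h.2.2⟩)⟩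
  rw [← card_pos, h.2.1]; omega

end Combine

end Pool.Agent.Helper40_VR
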