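import Pool.Agent.Helper40_VR.Meshulam

set_option autoImplicit false

namespace Pool.Agent.Helper40_VR

open Finset

section Cross

set_option linter.unusedSectionVars false

variable {V : Type*} [LinearOrder V]

/-- The cross-polytopal chain `(a₁ - b₁) ∧ (a₂ - b₂) ∧ …`. -/
noncomputable def cross : List (V × V) → (Finset V →₀ ℤ)
  | [] => Finsupp.single ∅ 1
  | p :: l => L p.1 (cross l) - L p.2 (cross l)

theorem bd_cross (l : List (V × V)) : bd (cross l) = 0 := by
  induction l with
  | nil => rw [cross, bd_single]; simp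
  | cons p l ih => rw [cross, map_sub, bd_L, bd_L, ih, map_zero, map_zero]; abel

/-- The pairs are mutually compatible for the relation `R`: all vertices of different pairs are
`R`-related and distinct. -/
def Compat (R : V → V → Prop) (p q : V × V) : Prop :=
  (R p.1 q.1 ∧ R p.1 q.2 ∧ R p.2 q.1 ∧ R p.2 q.2) ∧
    (p.1 ≠ q.1 ∧ p.1 ≠ q.2 ∧ p.2 ≠ q.1 ∧ p.2 ≠ q.2)

theorem cross_support {X : Set V} {R : V → V → Prop} (hR : ∀ x y, R x y → R y x) :
    ∀ l : List (V × V), l.Pairwise (Compat R) → (∀ p ∈ l, p.1 ∈ X ∧ p.2 ∈ X) →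
      ∀ τ, cross l τ ≠ 0 → ((∀ x ∈ τ, x ∈ X) ∧ τ.card = l.length ∧
        (∀ x ∈ τ, ∃ p ∈ l, x = p.1 ∨ x = p.2) ∧ ∀ x ∈ τ, ∀ y ∈ τ, x ≠ y → R x y) := by
  intro l
  induction l with
  | nil =>
    intro _ _ τ hτ
    rw [cross, Finsupp.single_apply] at hτ
    split_ifs at hτ with h
    · subst h; simp
    · exact absurd rfl hτ
  | cons p l ih =>
    intro hl hX τ hτ
    rw [List.pairwise_cons] at hl
    have ih' := ih hl.2 (fun q hq => hX q (List.mem_cons_of_mem _ hq))
    -- general step for a vertex `v ∈ {p.1, p.2}`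
    have step : ∀ v : V, v ∈ X → (v = p.1 ∨ v = p.2) →
        (∀ q ∈ l, (R v q.1 ∧ R v q.2)) → ∀ τ, L v (cross l) τ ≠ 0 →
        ((∀ x ∈ τ, x ∈ X) ∧ τ.card = l.length + 1 ∧
        (∀ x ∈ τ, ∃ p' ∈ p :: l, x = p'.1 ∨ x = p'.2) ∧ ∀ x ∈ τ, ∀ y ∈ τ, x ≠ y → R x y) := by
      intro v hvX hvp hvq
      refine L_support ?_ ih'
      rintro σ ⟨h1, h2, h3, h4⟩ hvσ
      have hvx : ∀ x ∈ σ, R v x := by
        intro x hx
        obtain ⟨q, hq, hq2⟩ := h3 x hx
        rcases hq2 with h | h
        · rw [h]; exact (hvq q hq).1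
        · rw [h]; exact (hvq q hq).2
      refine ⟨?_, by rw [card_insert_of_notMem hvσ, h2], ?_, ?_⟩
      · intro x hx
        rcases mem_insert.1 hx with h | h
        · rw [h]; exact hvX
        · exact h1 x h
      · intro x hx
        rcases mem_insert.1 hx with h | h
        · exact ⟨p, List.mem_cons_self, by rw [h]; exact hvp⟩
        · obtain ⟨q, hq, hq2⟩ := h3 x h
          exact ⟨q, List.mem_cons_of_mem _ hq, hq2⟩
      · intro x hx y hy hxy
        rcases mem_insert.1 hx with hx' | hx'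
        · rcases mem_insert.1 hy with hy' | hy'
          · exact absurd (hx'.trans hy'.symm) hxy
          · rw [hx']; exact hvx y hy'
        · rcases mem_insert.1 hy with hy' | hy'
          · rw [hy']; exact hR _ _ (hvx x hx')
          · exact h4 x hx' y hy' hxy
    rw [cross, Finsupp.sub_apply] at hτ
    have hp := hX p List.mem_cons_self
    by_cases h1 : L p.1 (cross l) τ ≠ 0
    · exact step p.1 hp.1 (Or.inl rfl) (fun q hq => ⟨(hl.1 q hq).1.1, (hl.1 q hq).1.2.1⟩) τ h1
    · by_cases h2 : L p.2 (cross l) τ ≠ 0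
      · exact step p.2 hp.2 (Or.inr rfl)
          (fun q hq => ⟨(hl.1 q hq).1.2.2.1, (hl.1 q hq).1.2.2.2⟩) τ h2
      · push Not at h1 h2
        rw [h1, h2] at hτ
        exact absurd rfl hτ

/-- The coefficient of the cross-polytopal chain at the facet of all first vertices is nonzero. -/
theorem cross_coeff (R : V → V → Prop) :
    ∀ l : List (V × V), l.Pairwise (Compat R) → (∀ p ∈ l, p.1 ≠ p.2) →
      cross l ((l.map Prod.fst).toFinset) ≠ 0 := by
  intro l
  induction l with
  | nil => intro _ _; simp [cross]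
  | cons p l ih =>
    intro hl hne
    rw [List.pairwise_cons] at hl
    have ih' := ih hl.2 (fun q hq => hne q (List.mem_cons_of_mem _ hq))
    have h1 : p.1 ∉ (l.map Prod.fst).toFinset := by
      rw [List.mem_toFinset, List.mem_map]
      rintro ⟨q, hq, hqp⟩
      exact (hl.1 q hq).2.1 hqp.symm
    have h2 : p.2 ∉ ((p :: l).map Prod.fst).toFinset := by
      rw [List.map_cons, List.toFinset_cons, mem_insert]
      rintro (h | h)
      · exact hne p List.mem_cons_self h.symm
      · rw [List.mem_toFinset, List.mem_map] at h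
        obtain ⟨q, hq, hqp⟩ := h
        exact (hl.1 q hq).2.2.2.1 hqp.symm
    rw [cross, Finsupp.sub_apply, L_apply_notMem _ h2, sub_zero, List.map_cons,
      List.toFinset_cons, L_apply_mem _ (mem_insert_self _ _), erase_insert h1]
    refine mul_ne_zero ?_ ih'
    unfold sgn
    exact pow_ne_zero _ (by norm_num)

/-- Boundaries have coefficient zero at a facet. -/
theorem bd_apply_facet {K : Set (Finset V)} {σ : Finset V}
    (hσ : ∀ τ ∈ K, σ ⊆ τ → τ = σ) {b : Finset V →₀ ℤ} (hb : ∀ τ, b τ ≠ 0 → τ ∈ K) :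
    bd b σ = 0 := by
  by_contra h
  have := map_supported (f := bd) (P := fun τ => τ ∈ K) (Q := fun ρ => ρ ≠ σ) ?_ hb σ h
  · exact this rfl
  · intro τ hτ ρ hρ
    rintro rfl
    rw [bd_single, one_smul, Finsupp.finsetSum_apply] at hρ
    obtain ⟨v, hv, hne⟩ := Finset.exists_ne_zero_of_sum_ne_zero hρ
    rw [Finsupp.single_apply] at hne
    split_ifs at hne with h1
    · have h2 := hσ τ hτ (by rw [← h1]; exact erase_subset _ _)
      rw [h2] at h1 hv
      exact notMem_erase v ρ (by rw [h1]; exact hv)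
    · exact absurd rfl hne

end Cross

end Pool.Agent.Helper40_VR
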