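import Mathlib

set_option autoImplicit false

/-!
Oriented simplicial chains of an abstract simplicial complex, reduced homology, and two tools:
* a facet that is a facet of an induced cross-polytope gives a nonzero homology class;
* if every `2k` vertices of a finite flag complex have a common neighbour, then its reduced
  homology in degree `k - 1` vanishes (Meshulam).
-/

namespace Pool.Agent.Helper40_VR

open Finset

section Basic

set_option linter.unusedSectionVars false

variable {V : Type*} [LinearOrder V]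

/-- The sign `(-1)^(number of elements of τ smaller than v)`. -/
def sgn (τ : Finset V) (v : V) : ℤ := (-1) ^ (τ.filter (fun u => u < v)).card

/-- The simplicial boundary on the free abelian group on all finite subsets of `V`; a finite set
is oriented by the linear order of `V`, the empty set is the generator in degree `-1`. -/
noncomputable def bd : (Finset V →₀ ℤ) →ₗ[ℤ] (Finset V →₀ ℤ) :=
  Finsupp.linearCombination ℤ
    (fun τ : Finset V => ∑ v ∈ τ, Finsupp.single (τ.erase v) (sgn τ v))

/-- Chains of degree `k - 1` of the simplicial complex `K`, augmented by the empty simplex: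
integer combinations of the faces with `k` vertices (of the empty set if `k = 0`). -/
noncomputable def chains (K : PreAbstractSimplicialComplex V) (k : ℕ) :
    Submodule ℤ (Finset V →₀ ℤ) :=
  Finsupp.supported ℤ ℤ {τ : Finset V | τ.card = k ∧ (τ = ∅ ∨ τ ∈ K)}

/-- The reduced simplicial cycles of degree `i`. -/
noncomputable def cycles (K : PreAbstractSimplicialComplex V) (i : ℕ) :
    Submodule ℤ (Finset V →₀ ℤ) :=
  chains K (i + 1) ⊓ LinearMap.ker bd

/-- The simplicial boundaries of degree `i`. -/
noncomputable def boundaries (K : PreAbstractSimplicialComplex V) (i : ℕ) :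
    Submodule ℤ (Finset V →₀ ℤ) :=
  (chains K (i + 2)).map bd

/-- The reduced simplicial homology group of `K` in degree `i`, with integer coefficients. -/
abbrev ReducedHomology (K : PreAbstractSimplicialComplex V) (i : ℕ) : Type _ :=
  cycles K i ⧸ (boundaries K i).comap (cycles K i).subtype

theorem sgn_sq (τ : Finset V) (v : V) : sgn τ v * sgn τ v = 1 := by
  unfold sgn
  rw [← mul_pow]; simp

theorem sgn_erase_self (τ : Finset V) (v : V) : sgn (τ.erase v) v = sgn τ v := by
  unfold sgn
  congr 2
  ext u
  simp only [mem_filter, mem_erase]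
  constructor
  · rintro ⟨⟨_, h⟩, h2⟩; exact ⟨h, h2⟩
  · rintro ⟨h, h2⟩; exact ⟨⟨h2.ne, h⟩, h2⟩

theorem sgn_insert_self (τ : Finset V) (v : V) : sgn (insert v τ) v = sgn τ v := by
  unfold sgn
  congr 2
  ext u
  simp only [mem_filter, mem_insert]
  constructor
  · rintro ⟨h | h, h2⟩
    · exact absurd h2 (by rw [h]; exact lt_irrefl _)
    · exact ⟨h, h2⟩
  · rintro ⟨h, h2⟩; exact ⟨Or.inr h, h2⟩

/-- Inserting a smaller vertex changes the sign. -/
theorem sgn_insert_lt {τ : Finset V} {v u : V} (hv : v ∉ τ) (h : v < u) :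
    sgn (insert v τ) u = - sgn τ u := by
  unfold sgn
  rw [filter_insert, if_pos h, card_insert_of_notMem (by simp [hv]), pow_succ]
  ring

theorem sgn_insert_gt {τ : Finset V} {v u : V} (h : u < v) :
    sgn (insert v τ) u = sgn τ u := by
  unfold sgn
  rw [filter_insert, if_neg (not_lt.2 h.le)]

theorem sgn_erase_lt {τ : Finset V} {v u : V} (hv : v ∈ τ) (h : v < u) :
    sgn (τ.erase v) u = - sgn τ u := by
  have := sgn_insert_lt (notMem_erase v τ) h
  rw [insert_erase hv] at this
  rw [this, neg_neg]

theorem sgn_erase_gt {τ : Finset V} {v u : V} (hv : v ∈ τ) (h : u < v) :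
    sgn (τ.erase v) u = sgn τ u := by
  have := sgn_insert_gt (τ := τ.erase v) h
  rw [insert_erase hv] at this
  exact this.symm

theorem bd_single (τ : Finset V) (a : ℤ) :
    bd (Finsupp.single τ a) = a • ∑ v ∈ τ, Finsupp.single (τ.erase v) (sgn τ v) := by
  unfold bd
  rw [Finsupp.linearCombination_single]

/-- Left multiplication by the vertex `v`. -/
noncomputable def L (v : V) : (Finset V →₀ ℤ) →ₗ[ℤ] (Finset V →₀ ℤ) :=
  Finsupp.linearCombination ℤ
    (fun τ : Finset V => if v ∈ τ then 0 else Finsupp.single (insert v τ) (sgn τ v))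

/-- Contraction with the vertex `v`. -/
noncomputable def D (v : V) : (Finset V →₀ ℤ) →ₗ[ℤ] (Finset V →₀ ℤ) :=
  Finsupp.linearCombination ℤ
    (fun τ : Finset V => if v ∈ τ then Finsupp.single (τ.erase v) (sgn τ v) else 0)

theorem L_single_mem {v : V} {τ : Finset V} (h : v ∈ τ) (a : ℤ) :
    L v (Finsupp.single τ a) = 0 := by
  unfold L
  rw [Finsupp.linearCombination_single, if_pos h, smul_zero]

theorem L_single {v : V} {τ : Finset V} (h : v ∉ τ) (a : ℤ) :
    L v (Finsupp.single τ a) = Finsupp.single (insert v τ) (a * sgn τ v) := by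
  unfold L
  rw [Finsupp.linearCombination_single, if_neg h, Finsupp.smul_single, smul_eq_mul]

theorem D_single_notMem {v : V} {τ : Finset V} (h : v ∉ τ) (a : ℤ) :
    D v (Finsupp.single τ a) = 0 := by
  unfold D
  rw [Finsupp.linearCombination_single, if_neg h, smul_zero]

theorem D_single {v : V} {τ : Finset V} (h : v ∈ τ) (a : ℤ) :
    D v (Finsupp.single τ a) = Finsupp.single (τ.erase v) (a * sgn τ v) := by
  unfold D
  rw [Finsupp.linearCombination_single, if_pos h, Finsupp.smul_single, smul_eq_mul]

/-- Two linear maps that agree on all `single τ 1` are equal. -/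
theorem ext_single {f g : (Finset V →₀ ℤ) →ₗ[ℤ] (Finset V →₀ ℤ)}
    (h : ∀ τ, f (Finsupp.single τ 1) = g (Finsupp.single τ 1)) (c : Finset V →₀ ℤ) :
    f c = g c := by
  have : f = g := by
    apply Finsupp.lhom_ext'
    intro τ
    apply LinearMap.ext_ring
    simpa using h τ
  rw [this]

/-- The homotopy formula `∂ (v ∧ c) = c - v ∧ ∂ c`. -/
theorem bd_L (v : V) (c : Finset V →₀ ℤ) : bd (L v c) = c - L v (bd c) := by
  refine ext_single (f := bd ∘ₗ L v) (g := LinearMap.id - L v ∘ₗ bd) ?_ c
  intro τ
  simp only [LinearMap.comp_apply, LinearMap.sub_apply, LinearMap.id_apply]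
  by_cases hv : v ∈ τ
  · rw [L_single_mem hv, map_zero, bd_single, one_smul, map_sum]
    rw [Finset.sum_eq_single_of_mem v hv]
    · rw [L_single (notMem_erase v τ), insert_erase hv, sgn_erase_self, sgn_sq, sub_self]
    · intro u hu huv
      exact L_single_mem (mem_erase.2 ⟨huv.symm, hv⟩) _
  · rw [L_single hv, one_mul, bd_single, sum_insert hv, erase_insert hv, bd_single, one_smul,
      map_sum, smul_add, Finsupp.smul_single, smul_eq_mul, sgn_insert_self, sgn_sq, sub_eq_add_neg,
      Finset.smul_sum, ← Finset.sum_neg_distrib]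
    congr 1
    refine Finset.sum_congr rfl fun u hu => ?_
    have huv : u ≠ v := fun h => hv (h ▸ hu)
    have hv' : v ∉ τ.erase u := fun h => hv (mem_of_mem_erase h)
    rw [L_single hv', Finsupp.smul_single, smul_eq_mul, ← Finsupp.single_neg,
      erase_insert_of_ne huv.symm]
    congr 1
    rcases lt_or_gt_of_ne huv with h | h
    · rw [sgn_insert_gt h, sgn_erase_lt hu h]; ring
    · rw [sgn_insert_lt hv h, sgn_erase_gt hu h]; ring

theorem D_L_of_notMem {v : V} {τ : Finset V} (h : v ∉ τ) (a : ℤ) :
    D v (L v (Finsupp.single τ a)) = Finsupp.single τ a := by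
  rw [L_single h, D_single (mem_insert_self v τ), erase_insert h, sgn_insert_self, mul_assoc,
    sgn_sq, mul_one]

/-- Every basis element is obtained from a smaller one by multiplication with a vertex. -/
theorem single_eq_L {v : V} {τ : Finset V} (h : v ∈ τ) :
    Finsupp.single τ (1 : ℤ) = L v (Finsupp.single (τ.erase v) (sgn τ v)) := by
  rw [L_single (notMem_erase v τ), insert_erase h, sgn_erase_self, sgn_sq]

theorem bd_bd (c : Finset V →₀ ℤ) : bd (bd c) = 0 := by
  have key : ∀ τ : Finset V, bd (bd (Finsupp.single τ (1 : ℤ))) = 0 := by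
    intro τ
    induction τ using Finset.induction_on with
    | empty => rw [bd_single]; simp
    | insert v τ hv ih =>
      have h1 : Finsupp.single (insert v τ) (1 : ℤ) = sgn τ v • L v (Finsupp.single τ 1) := by
        rw [L_single hv, one_mul, Finsupp.smul_single, smul_eq_mul, sgn_sq]
      rw [h1, LinearMap.map_smul, LinearMap.map_smul, bd_L, LinearMap.map_sub, bd_L, ih,
        LinearMap.map_zero, sub_zero, sub_self, smul_zero]
  have h := ext_single (f := bd ∘ₗ bd) (g := 0) (by
    intro τ
    rw [LinearMap.comp_apply, key τ, LinearMap.zero_apply]) c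
  rw [LinearMap.comp_apply, LinearMap.zero_apply] at h
  exact h

theorem D_bd (v : V) (c : Finset V →₀ ℤ) : D v (bd c) = - bd (D v c) := by
  refine ext_single (f := D v ∘ₗ bd) (g := - (bd ∘ₗ D v)) ?_ c
  intro τ
  simp only [LinearMap.comp_apply, LinearMap.neg_apply]
  by_cases hv : v ∈ τ
  · have hz : D v (Finsupp.single (τ.erase v) (sgn τ v)) = 0 :=
      D_single_notMem (notMem_erase v τ) _
    have hz2 : D v (L v (bd (Finsupp.single (τ.erase v) (sgn τ v)))) =
        bd (Finsupp.single (τ.erase v) (sgn τ v)) := by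
      rw [bd_single, map_smul, map_smul, map_sum, map_sum]
      congr 1
      refine Finset.sum_congr rfl fun u hu => ?_
      exact D_L_of_notMem (fun h => (notMem_erase v τ) (mem_of_mem_erase h)) _
    conv_lhs => rw [single_eq_L hv, bd_L, map_sub, hz, hz2, zero_sub]
    rw [D_single hv, one_mul]
  · rw [D_single_notMem hv, map_zero, neg_zero, bd_single, one_smul, map_sum]
    refine Finset.sum_eq_zero fun u hu => ?_
    exact D_single_notMem (fun h => hv (mem_of_mem_erase h)) _

/-- Support of an image. -/
theorem map_supported {f : (Finset V →₀ ℤ) →ₗ[ℤ] (Finset V →₀ ℤ)} {P Q : Finset V → Prop}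
    (h : ∀ τ, P τ → ∀ ρ, f (Finsupp.single τ 1) ρ ≠ 0 → Q ρ) {c : Finset V →₀ ℤ}
    (hc : ∀ τ, c τ ≠ 0 → P τ) : ∀ ρ, f c ρ ≠ 0 → Q ρ := by
  intro ρ hρ
  have h1 : f c = c.sum fun τ a => a • f (Finsupp.single τ 1) := by
    conv_lhs => rw [← Finsupp.sum_single c]
    rw [Finsupp.sum, map_sum, Finsupp.sum]
    refine Finset.sum_congr rfl fun τ _ => ?_
    rw [← map_smul, Finsupp.smul_single, smul_eq_mul, mul_one]
  rw [h1, Finsupp.sum, Finsupp.finsetSum_apply] at hρ
  obtain ⟨τ, hτ, hne⟩ := Finset.exists_ne_zero_of_sum_ne_zero hρ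
  refine h τ (hc τ (Finsupp.mem_support_iff.1 hτ)) ρ ?_
  intro h0
  apply hne
  rw [Finsupp.smul_apply, h0, smul_zero]

theorem L_support {v : V} {P Q : Finset V → Prop} (h : ∀ τ, P τ → v ∉ τ → Q (insert v τ))
    {c : Finset V →₀ ℤ} (hc : ∀ τ, c τ ≠ 0 → P τ) : ∀ ρ, L v c ρ ≠ 0 → Q ρ := by
  refine map_supported (P := P) ?_ hc
  intro τ hP ρ hρ
  by_cases hv : v ∈ τ
  · rw [L_single_mem hv] at hρ; exact absurd rfl hρ
  · rw [L_single hv, Finsupp.single_apply] at hρ
    split_ifs at hρ with h1
    · rw [← h1]; exact h τ hP hv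
    · exact absurd rfl hρ

theorem D_support {v : V} {P Q : Finset V → Prop} (h : ∀ τ, P τ → v ∈ τ → Q (τ.erase v))
    {c : Finset V →₀ ℤ} (hc : ∀ τ, c τ ≠ 0 → P τ) : ∀ ρ, D v c ρ ≠ 0 → Q ρ := by
  refine map_supported (P := P) ?_ hc
  intro τ hP ρ hρ
  by_cases hv : v ∈ τ
  · rw [D_single hv, Finsupp.single_apply] at hρ
    split_ifs at hρ with h1
    · rw [← h1]; exact h τ hP hv
    · exact absurd rfl hρ
  · rw [D_single_notMem hv] at hρ; exact absurd rfl hρ

/-- The coefficients of `v ∧ c`. -/
theorem L_apply_mem {v : V} (c : Finset V →₀ ℤ) {τ : Finset V} (hv : v ∈ τ) :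
    L v c τ = sgn τ v * c (τ.erase v) := by
  induction c using Finsupp.induction_linear with
  | zero => simp
  | add f g hf hg => rw [map_add, Finsupp.add_apply, hf, hg, Finsupp.add_apply, mul_add]
  | single ρ a =>
    by_cases h : v ∈ ρ
    · rw [L_single_mem h, Finsupp.coe_zero, Pi.zero_apply, Finsupp.single_apply, if_neg, mul_zero]
      rintro rfl; exact notMem_erase _ _ h
    · rw [L_single h, Finsupp.single_apply, Finsupp.single_apply]
      by_cases h2 : insert v ρ = τ
      · rw [if_pos h2, if_pos, ← h2, sgn_insert_self, mul_comm]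
        rw [← h2, erase_insert h]
      · rw [if_neg h2, if_neg, mul_zero]
        rintro rfl
        exact h2 (insert_erase hv)

theorem L_apply_notMem {v : V} (c : Finset V →₀ ℤ) {τ : Finset V} (hv : v ∉ τ) :
    L v c τ = 0 := by
  by_contra h
  have := L_support (v := v) (P := fun _ => True) (Q := fun ρ => v ∈ ρ)
    (fun τ _ _ => mem_insert_self v τ) (c := c) (fun _ _ => trivial) τ h
  exact hv this

/-- `u ∧ v ∧ (v, u) ⌟ c` is the part of `c` on the sets containing both `u` and `v`. -/
theorem LLDD_apply {u v : V} (huv : u ≠ v) (c : Finset V →₀ ℤ) (τ : Finset V) :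
    L u (L v (D v (D u c))) τ = if u ∈ τ ∧ v ∈ τ then c τ else 0 := by
  induction c using Finsupp.induction_linear with
  | zero => simp
  | add f g hf hg =>
    rw [map_add, map_add, map_add, map_add, Finsupp.add_apply, hf, hg, Finsupp.add_apply]
    split_ifs <;> simp
  | single ρ a =>
    by_cases hu : u ∈ ρ
    · rw [D_single hu]
      by_cases hv : v ∈ ρ
      · rw [D_single (mem_erase.2 ⟨huv.symm, hv⟩), L_single (notMem_erase _ _),
          insert_erase (mem_erase.2 ⟨huv.symm, hv⟩), L_single (notMem_erase _ _), insert_erase hu,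
          sgn_erase_self, sgn_erase_self]
        have : a * sgn ρ u * sgn (ρ.erase u) v * sgn (ρ.erase u) v * sgn ρ u = a := by
          have h1 := sgn_sq (ρ.erase u) v
          have h2 := sgn_sq ρ u
          calc a * sgn ρ u * sgn (ρ.erase u) v * sgn (ρ.erase u) v * sgn ρ u
              = a * (sgn ρ u * sgn ρ u) * (sgn (ρ.erase u) v * sgn (ρ.erase u) v) := by ring
            _ = a := by rw [h1, h2]; ring
        rw [this]
        by_cases h : ρ = τ
        · subst h; rw [if_pos ⟨hu, hv⟩]
        · rw [Finsupp.single_apply, if_neg h]; simp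
      · rw [D_single_notMem (fun h => hv (mem_of_mem_erase h))]
        simp only [map_zero, Finsupp.coe_zero, Pi.zero_apply]
        rw [Finsupp.single_apply]
        split_ifs with h1 h2
        · subst h2; exact absurd h1.2 hv
        · rfl
        · rfl
    · rw [D_single_notMem hu]
      simp only [map_zero, Finsupp.coe_zero, Pi.zero_apply]
      rw [Finsupp.single_apply]
      split_ifs with h1 h2
      · subst h2; exact absurd h1.1 hu
      · rfl
      · rfl

end Basic

end Pool.Agent.Helper40_VR
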