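import Pool.Agent.Helper40_VR.Homology

set_option autoImplicit false

namespace Pool.Agent.Helper40_VR

open Finset

section Meshulam

set_option linter.unusedSectionVars false

variable {V : Type*} [LinearOrder V]

/-- Faces with `k` vertices of the clique complex of the relation `R` on the finite set `X`. -/
def Cl (X : Finset V) (R : V → V → Prop) (k : ℕ) (τ : Finset V) : Prop :=
  τ ⊆ X ∧ τ.card = k ∧ ∀ x ∈ τ, ∀ y ∈ τ, x ≠ y → R x y

theorem Cl_insert {X : Finset V} {R : V → V → Prop} (hR : ∀ x y, R x y → R y x) {k : ℕ}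
    {τ : Finset V} {w : V} (hτ : Cl X R k τ) (hw : w ∈ X) (hwτ : w ∉ τ) (h : ∀ x ∈ τ, R w x) :
    Cl X R (k + 1) (insert w τ) := by
  refine ⟨insert_subset hw hτ.1, by rw [card_insert_of_notMem hwτ, hτ.2.1], ?_⟩
  intro x hx y hy hxy
  rcases mem_insert.1 hx with hx' | hx'
  · rcases mem_insert.1 hy with hy' | hy'
    · exact absurd (hx'.trans hy'.symm) hxy
    · rw [hx']; exact h y hy'
  · rcases mem_insert.1 hy with hy' | hy'
    · rw [hy']; exact hR _ _ (h x hx')
    · exact hτ.2.2 x hx' y hy' hxy

open Classical in
/-- Number of ordered non-adjacent pairs. -/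
noncomputable def nonedges (X : Finset V) (R : V → V → Prop) : Finset (V × V) :=
  (X ×ˢ X).filter (fun p => p.1 ≠ p.2 ∧ ¬ R p.1 p.2)

theorem mem_nonedges {X : Finset V} {R : V → V → Prop} {p : V × V} :
    p ∈ nonedges X R ↔ (p.1 ∈ X ∧ p.2 ∈ X) ∧ p.1 ≠ p.2 ∧ ¬ R p.1 p.2 := by
  classical
  unfold nonedges
  rw [mem_filter, mem_product]

/-- **Meshulam's lemma**, chain version: if every set of at most `2 k` vertices of the clique
complex of `R` on `X` has a common neighbour, then every cycle on `k`-vertex faces bounds. -/
theorem meshulam (k : ℕ) : ∀ (m : ℕ) (X : Finset V) (R : V → V → Prop),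
    (∀ x y, R x y → R y x) → (nonedges X R).card ≤ m →
    (∀ S ⊆ X, S.card ≤ 2 * k → ∃ w ∈ X, w ∉ S ∧ ∀ s ∈ S, R w s) →
    ∀ c : Finset V →₀ ℤ, (∀ τ, c τ ≠ 0 → Cl X R k τ) → bd c = 0 →
      ∃ b : Finset V →₀ ℤ, (∀ τ, b τ ≠ 0 → Cl X R (k + 1) τ) ∧ bd b = c := by
  induction k with
  | zero =>
    intro m X R hR _ hS c hc hbc
    obtain ⟨w, hwX, -, -⟩ := hS ∅ (empty_subset _) (by simp)
    refine ⟨L w c, ?_, by rw [bd_L, hbc, map_zero, sub_zero]⟩
    refine L_support (P := Cl X R 0) ?_ hc
    intro τ hτ hw
    have h0 : τ = ∅ := card_eq_zero.1 hτ.2.1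
    subst h0
    exact Cl_insert hR hτ hwX hw (by simp)
  | succ k ihk =>
    intro m
    induction m with
    | zero =>
      intro X R hR hm hS c hc hbc
      obtain ⟨w, hwX, -, -⟩ := hS ∅ (empty_subset _) (by simp)
      refine ⟨L w c, ?_, by rw [bd_L, hbc, map_zero, sub_zero]⟩
      refine L_support (P := Cl X R (k + 1)) ?_ hc
      intro τ hτ hw
      refine Cl_insert hR hτ hwX hw ?_
      intro x hx
      by_contra hcon
      have hmem : (w, x) ∈ nonedges X R := by
        rw [mem_nonedges]
        exact ⟨⟨hwX, hτ.1 hx⟩, fun h => hw ((show w = x from h) ▸ hx), hcon⟩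
      have : 0 < (nonedges X R).card := card_pos.2 ⟨_, hmem⟩
      omega
    | succ m ihm =>
      intro X R hR hm hS c hc hbc
      obtain ⟨u, huX, -, -⟩ := hS ∅ (empty_subset _) (by simp)
      by_cases hcone : ∀ x ∈ X, x ≠ u → R u x
      · refine ⟨L u c, ?_, by rw [bd_L, hbc, map_zero, sub_zero]⟩
        refine L_support (P := Cl X R (k + 1)) ?_ hc
        intro τ hτ hw
        exact Cl_insert hR hτ huX hw fun x hx => hcone x (hτ.1 hx) (fun h => hw (h ▸ hx))
      · push Not at hcone
        obtain ⟨v, hvX, hvu, hnR⟩ := hcone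
        -- add the edge `u v`
        set R' : V → V → Prop := fun x y => R x y ∨ (x = u ∧ y = v) ∨ (x = v ∧ y = u) with hR'
        have hR's : ∀ x y, R' x y → R' y x := by
          intro x y h
          rcases h with h | ⟨h1, h2⟩ | ⟨h1, h2⟩
          · exact Or.inl (hR _ _ h)
          · exact Or.inr (Or.inr ⟨h2, h1⟩)
          · exact Or.inr (Or.inl ⟨h2, h1⟩)
        have hlt : (nonedges X R').card < (nonedges X R).card := by
          apply card_lt_card
          refine ⟨?_, ?_⟩
          · intro p hp
            rw [mem_nonedges] at hp ⊢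
            exact ⟨hp.1, hp.2.1, fun h => hp.2.2 (Or.inl h)⟩
          · intro h
            have hmem : (u, v) ∈ nonedges X R := by
              rw [mem_nonedges]
              exact ⟨⟨huX, hvX⟩, hvu.symm, hnR⟩
            have := h hmem
            rw [mem_nonedges] at this
            exact this.2.2 (Or.inr (Or.inl ⟨rfl, rfl⟩))
        have hc' : ∀ τ, c τ ≠ 0 → Cl X R' (k + 1) τ := fun τ h =>
          ⟨(hc τ h).1, (hc τ h).2.1, fun x hx y hy hxy => Or.inl ((hc τ h).2.2 x hx y hy hxy)⟩
        obtain ⟨b, hb, hbb⟩ := ihm X R' hR's (by omega)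
          (fun S hSX hSc => by
            obtain ⟨w, h1, h2, h3⟩ := hS S hSX hSc
            exact ⟨w, h1, h2, fun s hs => Or.inl (h3 s hs)⟩) c hc' hbc
        -- the link part
        set f : Finset V →₀ ℤ := D v (D u b) with hf
        have hDuc : D v (D u c) = 0 := by
          ext τ
          by_contra hne
          have h1 := D_support (v := v) (P := fun τ => ∃ ρ, Cl X R (k + 1) ρ ∧ u ∈ ρ ∧ τ = ρ.erase u)
            (Q := fun _ => False) (c := D u c) ?_ ?_ τ hne
          · exact h1
          · rintro σ ⟨ρ, hρ, huρ, rfl⟩ hv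
            exact hnR (hρ.2.2 u huρ v (mem_of_mem_erase hv) hvu.symm)
          · refine D_support (P := Cl X R (k + 1)) ?_ hc
            intro τ hτ hu
            exact ⟨τ, hτ, hu, rfl⟩
        have hbf : bd f = 0 := by
          have h1 : D v (D u (bd b)) = bd (D v (D u b)) := by
            rw [D_bd, map_neg, D_bd, neg_neg]
          rw [hf, ← h1, hbb, hDuc]
        classical
        set X' : Finset V := X.filter (fun x => x ≠ u ∧ x ≠ v ∧ R x u ∧ R x v) with hX'
        have hfs : ∀ τ, f τ ≠ 0 → Cl X' R k τ := by
          rw [hf]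
          refine D_support (P := fun τ => ∃ ρ, Cl X R' (k + 2) ρ ∧ u ∈ ρ ∧ τ = ρ.erase u) ?_ ?_
          · rintro σ ⟨ρ, hρ, huρ, rfl⟩ hv
            have hvρ : v ∈ ρ := mem_of_mem_erase hv
            refine ⟨?_, ?_, ?_⟩
            · intro x hx
              have hxv : x ≠ v := ne_of_mem_erase hx
              have hxu : x ≠ u := ne_of_mem_erase (mem_of_mem_erase hx)
              have hxρ : x ∈ ρ := mem_of_mem_erase (mem_of_mem_erase hx)
              rw [hX', mem_filter]
              refine ⟨hρ.1 hxρ, hxu, hxv, ?_, ?_⟩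
              · rcases hρ.2.2 x hxρ u huρ hxu with h | ⟨h, _⟩ | ⟨h, _⟩
                · exact h
                · exact absurd h hxu
                · exact absurd h hxv
              · rcases hρ.2.2 x hxρ v hvρ hxv with h | ⟨h, _⟩ | ⟨h, _⟩
                · exact h
                · exact absurd h hxu
                · exact absurd h hxv
            · rw [card_erase_of_mem hv, card_erase_of_mem huρ, hρ.2.1]; rfl
            · intro x hx y hy hxy
              have hxv : x ≠ v := ne_of_mem_erase hx
              have hxu : x ≠ u := ne_of_mem_erase (mem_of_mem_erase hx)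
              have hxρ : x ∈ ρ := mem_of_mem_erase (mem_of_mem_erase hx)
              have hyρ : y ∈ ρ := mem_of_mem_erase (mem_of_mem_erase hy)
              rcases hρ.2.2 x hxρ y hyρ hxy with h | ⟨h, _⟩ | ⟨h, _⟩
              · exact h
              · exact absurd h hxu
              · exact absurd h hxv
          · refine D_support (P := Cl X R' (k + 2)) ?_ hb
            intro τ hτ hu
            exact ⟨τ, hτ, hu, rfl⟩
        obtain ⟨g, hg, hgf⟩ := ihk (nonedges X' R).card X' R hR le_rfl
          (fun S hSX hSc => by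
            obtain ⟨w, h1, h2, h3⟩ := hS (insert u (insert v S))
              (by
                refine insert_subset huX (insert_subset hvX ?_)
                exact hSX.trans (filter_subset _ _))
              (by
                refine (card_insert_le _ _).trans ?_
                have := card_insert_le v S
                omega)
            refine ⟨w, ?_, fun h => h2 (by simp [h]), fun s hs => h3 s (by simp [hs])⟩
            rw [hX', mem_filter]
            refine ⟨h1, fun h => h2 (by simp [h]), fun h => h2 (by simp [h]), h3 u (by simp),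
              h3 v (by simp)⟩) f hfs hbf
        -- the corrected chain
        have hcomp : bd (L u (L v g)) = L v g - L u g + L u (L v f) := by
          rw [bd_L, bd_L, hgf, map_sub]; abel
        refine ⟨b - bd (L u (L v g)), ?_, by rw [map_sub, bd_bd, sub_zero, hbb]⟩
        have hLu : ∀ τ, L u g τ ≠ 0 → Cl X R (k + 2) τ := by
          refine L_support (P := Cl X' R (k + 1)) ?_ hg
          intro τ hτ hu
          refine Cl_insert hR (k := k + 1) ⟨hτ.1.trans (filter_subset _ _), hτ.2⟩ huX hu ?_
          intro x hx
          have := hτ.1 hx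
          rw [hX', mem_filter] at this
          exact hR _ _ this.2.2.2.1
        have hLv : ∀ τ, L v g τ ≠ 0 → Cl X R (k + 2) τ := by
          refine L_support (P := Cl X' R (k + 1)) ?_ hg
          intro τ hτ hu
          refine Cl_insert hR (k := k + 1) ⟨hτ.1.trans (filter_subset _ _), hτ.2⟩ hvX hu ?_
          intro x hx
          have := hτ.1 hx
          rw [hX', mem_filter] at this
          exact hR _ _ this.2.2.2.2
        intro τ hτ
        rw [hcomp, hf] at hτ
        rw [Finsupp.sub_apply, Finsupp.add_apply, Finsupp.sub_apply, LLDD_apply hvu.symm] at hτ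
        by_cases h1 : L u g τ ≠ 0
        · exact hLu τ h1
        · by_cases h2 : L v g τ ≠ 0
          · exact hLv τ h2
          · push Not at h1 h2
            rw [h1, h2] at hτ
            split_ifs at hτ with h3
            · exact absurd (by ring) hτ
            · have h4 : b τ ≠ 0 := by
                intro h; apply hτ; rw [h]; ring
              have h5 := hb τ h4
              refine ⟨h5.1, h5.2.1, ?_⟩
              intro x hx y hy hxy
              rcases h5.2.2 x hx y hy hxy with h | ⟨h, h'⟩ | ⟨h, h'⟩
              · exact h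
              · exact absurd ⟨h ▸ hx, h' ▸ hy⟩ h3
              · exact absurd ⟨h' ▸ hy, h ▸ hx⟩ h3

end Meshulam

end Pool.Agent.Helper40_VR
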