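import Mathlib

set_option autoImplicit false

/-!
Rigid maximal sets of given diameter in the cube `Fin n → Bool` with the Hamming distance:
basic constructions (products, padding, switching) and the translation to natural numbers.
-/

namespace Pool.Agent.Helper40_VR

open Finset

/-- `A` is nonempty, of diameter at most `r`, every point of `A` has a point of `A` at distance
exactly `r`, and every other point of the cube has a point of `A` at distance more than `r`. -/
structure RM {n : ℕ} (r : ℕ) (A : Finset (Fin n → Bool)) : Prop where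
  ne : A.Nonempty
  le : ∀ x ∈ A, ∀ y ∈ A, hammingDist x y ≤ r
  rigid : ∀ x ∈ A, ∃ y ∈ A, hammingDist x y = r
  maxl : ∀ x, x ∉ A → ∃ y ∈ A, r < hammingDist x y

theorem dist_append {a b : ℕ} (x x' : Fin a → Bool) (y y' : Fin b → Bool) :
    hammingDist (Fin.append x y) (Fin.append x' y') = hammingDist x x' + hammingDist y y' := by
  unfold hammingDist
  rw [Finset.card_filter, Finset.card_filter, Finset.card_filter, Fin.sum_univ_add]
  simp

theorem append_inj {a b : ℕ} {x x' : Fin a → Bool} {y y' : Fin b → Bool}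
    (h : Fin.append x y = Fin.append x' y') : x = x' ∧ y = y' := by
  constructor
  · funext i
    have := congrFun h (Fin.castAdd b i)
    simpa using this
  · funext i
    have := congrFun h (Fin.natAdd a i)
    simpa using this

theorem exists_append {a b : ℕ} (w : Fin (a + b) → Bool) :
    ∃ x y, w = Fin.append x y :=
  ⟨fun i => w (Fin.castAdd b i), fun i => w (Fin.natAdd a i), (Fin.append_castAdd_natAdd).symm⟩

/-- The set of all `append x u` with `u ∈ U` and `x ∈ A u`. -/
def fam {a b : ℕ} (A : (Fin b → Bool) → Finset (Fin a → Bool)) (U : Finset (Fin b → Bool)) :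
    Finset (Fin (a + b) → Bool) :=
  U.biUnion fun u => (A u).image fun x => Fin.append x u

theorem mem_fam {a b : ℕ} {A : (Fin b → Bool) → Finset (Fin a → Bool)}
    {U : Finset (Fin b → Bool)} {x : Fin a → Bool} {u : Fin b → Bool} :
    Fin.append x u ∈ fam A U ↔ u ∈ U ∧ x ∈ A u := by
  unfold fam
  simp only [mem_biUnion, mem_image]
  constructor
  · rintro ⟨v, hv, y, hy, h⟩
    obtain ⟨h1, h2⟩ := append_inj h
    subst h1 h2
    exact ⟨hv, hy⟩
  · rintro ⟨hu, hx⟩
    exact ⟨u, hu, x, hx, rfl⟩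

theorem card_fam {a b : ℕ} (A : (Fin b → Bool) → Finset (Fin a → Bool))
    (U : Finset (Fin b → Bool)) : (fam A U).card = ∑ u ∈ U, (A u).card := by
  unfold fam
  rw [card_biUnion]
  · refine Finset.sum_congr rfl fun u _ => ?_
    rw [card_image_of_injective]
    intro x x' h
    exact (append_inj h).1
  · intro u _ v _ huv
    rw [Function.onFun, Finset.disjoint_left]
    intro w hw hw'
    rw [mem_image] at hw hw'
    obtain ⟨x, _, rfl⟩ := hw
    obtain ⟨y, _, h⟩ := hw'
    exact huv (append_inj h).2.symm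

/-- Products. -/
theorem RM.prod {a b r s : ℕ} {A : Finset (Fin a → Bool)} {B : Finset (Fin b → Bool)}
    (hA : RM r A) (hB : RM s B) : RM (r + s) (fam (fun _ => A) B) := by
  refine ⟨?_, ?_, ?_, ?_⟩
  · obtain ⟨x, hx⟩ := hA.ne
    obtain ⟨u, hu⟩ := hB.ne
    exact ⟨_, mem_fam.2 ⟨hu, hx⟩⟩
  · intro w hw w' hw'
    obtain ⟨x, u, rfl⟩ := exists_append w
    obtain ⟨x', u', rfl⟩ := exists_append w'
    rw [mem_fam] at hw hw'
    rw [dist_append]
    exact add_le_add (hA.le x hw.2 x' hw'.2) (hB.le u hw.1 u' hw'.1)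
  · intro w hw
    obtain ⟨x, u, rfl⟩ := exists_append w
    rw [mem_fam] at hw
    obtain ⟨y, hy, h1⟩ := hA.rigid x hw.2
    obtain ⟨v, hv, h2⟩ := hB.rigid u hw.1
    exact ⟨_, mem_fam.2 ⟨hv, hy⟩, by rw [dist_append, h1, h2]⟩
  · intro w hw
    obtain ⟨x, u, rfl⟩ := exists_append w
    rw [mem_fam] at hw
    have h1 : ∃ y ∈ A, r ≤ hammingDist x y ∧ (x ∉ A → r < hammingDist x y) := by
      by_cases hx : x ∈ A
      · obtain ⟨y, hy, h⟩ := hA.rigid x hx
        exact ⟨y, hy, h.ge, fun h => absurd hx h⟩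
      · obtain ⟨y, hy, h⟩ := hA.maxl x hx
        exact ⟨y, hy, h.le, fun _ => h⟩
    have h2 : ∃ v ∈ B, s ≤ hammingDist u v ∧ (u ∉ B → s < hammingDist u v) := by
      by_cases hx : u ∈ B
      · obtain ⟨y, hy, h⟩ := hB.rigid u hx
        exact ⟨y, hy, h.ge, fun h => absurd hx h⟩
      · obtain ⟨y, hy, h⟩ := hB.maxl u hx
        exact ⟨y, hy, h.le, fun _ => h⟩
    obtain ⟨y, hy, h3, h4⟩ := h1
    obtain ⟨v, hv, h5, h6⟩ := h2
    refine ⟨_, mem_fam.2 ⟨hv, hy⟩, ?_⟩
    rw [dist_append]
    by_cases hx : x ∈ A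
    · have := h6 (fun h => hw ⟨h, hx⟩); omega
    · have := h4 hx; omega

/-- The one-point set in a cube. -/
theorem RM.zero (b : ℕ) : RM 0 ({fun _ => false} : Finset (Fin b → Bool)) := by
  refine ⟨singleton_nonempty _, ?_, ?_, ?_⟩
  · intro x hx y hy
    rw [mem_singleton] at hx hy
    rw [hx, hy, hammingDist_self]
  · intro x hx
    exact ⟨x, hx, hammingDist_self x⟩
  · intro x hx
    refine ⟨_, mem_singleton_self _, ?_⟩
    rw [mem_singleton] at hx
    exact hammingDist_pos.2 hx

/-- The whole cube. -/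
theorem hammingDist_compl {b : ℕ} (u : Fin b → Bool) : hammingDist u (fun i => !(u i)) = b := by
  unfold hammingDist
  rw [Finset.filter_true_of_mem, Finset.card_univ, Fintype.card_fin]
  intro i _
  cases h : u i <;> simp [h]

theorem hammingDist_lt_of_ne_compl {b : ℕ} {u v : Fin b → Bool} (h : v ≠ fun i => !(u i)) :
    hammingDist u v + 1 ≤ b := by
  by_contra hcon
  apply h
  have h1 : hammingDist u v ≤ b := by simpa using hammingDist_le_card_fintype (x := u) (y := v)
  have h2 : (Finset.univ.filter fun i => u i ≠ v i).card = (Finset.univ : Finset (Fin b)).card := by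
    rw [Finset.card_univ, Fintype.card_fin]
    change hammingDist u v = b
    omega
  have h3 := (Finset.filter_card_eq h2)
  funext i
  have := h3 i (mem_univ i)
  revert this
  cases u i <;> cases v i <;> simp

/-- Switching between two rigid maximal sets of the same diameter along an antipodally
symmetric function. -/
theorem RM.switch {a b r : ℕ} {A : Bool → Finset (Fin a → Bool)} (hA : ∀ t, RM r (A t))
    (hcross : ∀ t t', ∀ x ∈ A t, ∀ y ∈ A t', hammingDist x y ≤ r + 1)
    (s : (Fin b → Bool) → Bool) (hs : ∀ u, s (fun i => !(u i)) = s u) :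
    RM (r + b) (fam (fun u => A (s u)) univ) := by
  refine ⟨?_, ?_, ?_, ?_⟩
  · obtain ⟨x, hx⟩ := (hA (s fun _ => false)).ne
    exact ⟨_, mem_fam.2 ⟨mem_univ _, hx⟩⟩
  · intro w hw w' hw'
    obtain ⟨x, u, rfl⟩ := exists_append w
    obtain ⟨x', u', rfl⟩ := exists_append w'
    rw [mem_fam] at hw hw'
    rw [dist_append]
    by_cases h : u' = fun i => !(u i)
    · have h1 : s u' = s u := by rw [h, hs]
      have h2 := (hA (s u)).le x hw.2 x' (by rw [← h1]; exact hw'.2)
      have h3 : hammingDist u u' = b := by rw [h, hammingDist_compl]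
      omega
    · have h2 := hcross _ _ x hw.2 x' hw'.2
      have h3 := hammingDist_lt_of_ne_compl h
      omega
  · intro w hw
    obtain ⟨x, u, rfl⟩ := exists_append w
    rw [mem_fam] at hw
    obtain ⟨y, hy, h1⟩ := (hA (s u)).rigid x hw.2
    exact ⟨Fin.append y (fun i => !(u i)), mem_fam.2 ⟨mem_univ _, by rw [hs]; exact hy⟩,
      by rw [dist_append, h1, hammingDist_compl]⟩
  · intro w hw
    obtain ⟨x, u, rfl⟩ := exists_append w
    rw [mem_fam] at hw
    obtain ⟨y, hy, h1⟩ := (hA (s u)).maxl x (fun h => hw ⟨mem_univ _, h⟩)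
    exact ⟨Fin.append y (fun i => !(u i)), mem_fam.2 ⟨mem_univ _, by rw [hs]; exact hy⟩,
      by rw [dist_append, hammingDist_compl]; omega⟩

/-! ### Natural numbers as points -/

/-- The point of the cube with the binary digits of `a`. -/
def pnt (n : ℕ) (a : ℕ) : Fin n → Bool := fun i => a.testBit i

/-- Number of ones among the first `n` binary digits. -/
def pc : ℕ → ℕ → ℕ
  | 0, _ => 0
  | n + 1, x => x % 2 + pc n (x / 2)

theorem hammingDist_pnt (n : ℕ) : ∀ a b : ℕ, hammingDist (pnt n a) (pnt n b) = pc n (a ^^^ b) := by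
  induction n with
  | zero => intro a b; simp [hammingDist, pc]
  | succ n ih =>
    intro a b
    have h1 : hammingDist (pnt (n + 1) a) (pnt (n + 1) b) =
        (if a.testBit 0 ≠ b.testBit 0 then 1 else 0) +
          hammingDist (pnt n (a / 2)) (pnt n (b / 2)) := by
      unfold hammingDist
      rw [Finset.card_filter, Fin.sum_univ_succ, Finset.card_filter]
      congr 1
      refine Finset.sum_congr rfl fun i _ => ?_
      unfold pnt
      rw [Nat.testBit_div_two, Nat.testBit_div_two]
      rfl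
    rw [h1, ih]
    simp only [pc]
    congr 1
    · rw [Nat.testBit_zero, Nat.testBit_zero]
      have h2 : (a ^^^ b) % 2 = (a + b) % 2 := by
        have := Nat.testBit_xor a b 0
        rw [Nat.testBit_zero, Nat.testBit_zero, Nat.testBit_zero] at this
        rcases Nat.mod_two_eq_zero_or_one a with ha | ha <;>
        rcases Nat.mod_two_eq_zero_or_one b with hb | hb <;>
        rcases Nat.mod_two_eq_zero_or_one (a ^^^ b) with hc | hc <;>
        simp [ha, hb, hc] at this ⊢ <;> omega
      rw [h2]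
      rcases Nat.mod_two_eq_zero_or_one a with ha | ha <;>
      rcases Nat.mod_two_eq_zero_or_one b with hb | hb <;>
      simp [ha, hb] <;> omega
    · rw [Nat.xor_div_two]

theorem exists_pnt {n : ℕ} (x : Fin n → Bool) : ∃ a < 2 ^ n, pnt n a = x := by
  have hinj : Function.Injective (fun a : Fin (2 ^ n) => pnt n a) := by
    intro a b h
    apply Fin.ext
    apply Nat.eq_of_testBit_eq
    intro i
    by_cases hi : i < n
    · exact congrFun h ⟨i, hi⟩
    · push Not at hi
      have h1 : 2 ^ n ≤ 2 ^ i := Nat.pow_le_pow_right (by norm_num) hi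
      rw [Nat.testBit_eq_false_of_lt (lt_of_lt_of_le a.2 h1),
        Nat.testBit_eq_false_of_lt (lt_of_lt_of_le b.2 h1)]
  have hbij := (Fintype.bijective_iff_injective_and_card _).2 ⟨hinj, by simp⟩
  obtain ⟨a, ha⟩ := hbij.2 x
  exact ⟨a, a.2, ha⟩

theorem pnt_inj {n a b : ℕ} (ha : a < 2 ^ n) (hb : b < 2 ^ n) (h : pnt n a = pnt n b) : a = b := by
  apply Nat.eq_of_testBit_eq
  intro i
  by_cases hi : i < n
  · exact congrFun h ⟨i, hi⟩
  · push Not at hi
    have h1 : 2 ^ n ≤ 2 ^ i := Nat.pow_le_pow_right (by norm_num) hi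
    rw [Nat.testBit_eq_false_of_lt (lt_of_lt_of_le ha h1),
      Nat.testBit_eq_false_of_lt (lt_of_lt_of_le hb h1)]

/-- The Boolean check that the list `l` of numbers is a rigid maximal set of diameter `r`. -/
def rmCheck (n r : ℕ) (l : List ℕ) : Bool :=
  (List.range (2 ^ n)).all fun w =>
    if l.contains w then
      (l.all fun a => decide (pc n (w ^^^ a) ≤ r)) && (l.any fun a => pc n (w ^^^ a) == r)
    else l.any fun a => decide (r < pc n (w ^^^ a))

/-- The set of points given by a list of numbers. -/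
def pts (n : ℕ) (l : List ℕ) : Finset (Fin n → Bool) := (l.map (pnt n)).toFinset

theorem mem_pts {n : ℕ} {l : List ℕ} {x : Fin n → Bool} :
    x ∈ pts n l ↔ ∃ a ∈ l, pnt n a = x := by
  unfold pts
  rw [List.mem_toFinset, List.mem_map]

theorem card_pts {n : ℕ} {l : List ℕ} (hl : l.Nodup) (hlt : ∀ a ∈ l, a < 2 ^ n) :
    (pts n l).card = l.length := by
  unfold pts
  rw [List.toFinset_card_of_nodup, List.length_map]
  refine (List.nodup_map_iff_inj_on hl).2 ?_
  intro a ha b hb h
  exact pnt_inj (hlt a ha) (hlt b hb) h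

theorem rm_of_check {n r : ℕ} {l : List ℕ} (hne : l ≠ []) (hlt : ∀ a ∈ l, a < 2 ^ n)
    (h : rmCheck n r l = true) : RM r (pts n l) := by
  have key : ∀ w < 2 ^ n, (w ∈ l → (∀ a ∈ l, pc n (w ^^^ a) ≤ r) ∧ ∃ a ∈ l, pc n (w ^^^ a) = r) ∧
      (w ∉ l → ∃ a ∈ l, r < pc n (w ^^^ a)) := by
    intro w hw
    unfold rmCheck at h
    rw [List.all_eq_true] at h
    have h1 := h w (List.mem_range.2 hw)
    constructor
    · intro hwl
      rw [if_pos (by simpa using hwl), Bool.and_eq_true, List.all_eq_true, List.any_eq_true] at h1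
      refine ⟨fun a ha => by simpa using h1.1 a ha, ?_⟩
      obtain ⟨a, ha, h2⟩ := h1.2
      exact ⟨a, ha, by simpa using h2⟩
    · intro hwl
      rw [if_neg (by simpa using hwl), List.any_eq_true] at h1
      obtain ⟨a, ha, h2⟩ := h1
      exact ⟨a, ha, by simpa using h2⟩
  refine ⟨?_, ?_, ?_, ?_⟩
  · obtain ⟨a, ha⟩ := List.exists_mem_of_ne_nil l hne
    exact ⟨_, mem_pts.2 ⟨a, ha, rfl⟩⟩
  · intro x hx y hy
    obtain ⟨a, ha, rfl⟩ := mem_pts.1 hx
    obtain ⟨b, hb, rfl⟩ := mem_pts.1 hy
    rw [hammingDist_pnt]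
    exact ((key a (hlt a ha)).1 ha).1 b hb
  · intro x hx
    obtain ⟨a, ha, rfl⟩ := mem_pts.1 hx
    obtain ⟨b, hb, h2⟩ := ((key a (hlt a ha)).1 ha).2
    exact ⟨_, mem_pts.2 ⟨b, hb, rfl⟩, by rw [hammingDist_pnt, h2]⟩
  · intro x hx
    obtain ⟨a, ha, rfl⟩ := exists_pnt x
    have hal : a ∉ l := fun h => hx (mem_pts.2 ⟨a, h, rfl⟩)
    obtain ⟨b, hb, h2⟩ := (key a ha).2 hal
    exact ⟨_, mem_pts.2 ⟨b, hb, rfl⟩, by rw [hammingDist_pnt]; exact h2⟩

end Pool.Agent.Helper40_VR
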